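import Pool.Agent.U536.CF.TU
import Pool.Agent.Results.MP_5591bc_ag.MultiplicativeValues

/-!
# Periods of products of cyclic covers over tuples of integers with large common factors with the values of multiplicative functions

Let `F_1, ..., F_p` be positive multiplicative functions of at most polynomial growth such that `F_i p ≤ M p` for the
large primes `p`, with different values at different large primes; for example Euler's function or the sum of the
divisors. Let `b < 1` and `0 ≤ c < 2 b - 1`. Let `Γ_1, …, Γ_p`, `p ≥ 1`, be families of cyclic covers of the line with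
algebraic branch points, `K` a number field and `δ` a degree. For all tuples `m` in `[1, N]^p` but `N^p exp (-(log N)^c)`,
for EVERY tuple `w` of integers `w_i ≥ exp ((log N)^b)` such that `gcd(w_i, F_i(m_i)) ≥ w_j^ρ` for all `i`, `j`, the point
`s = (1 / w_1, …, 1 / w_p)` is in the polydisc of radius `r` and the degree `δ` statement over `K` is true at `s` for the
periods of the product of the fibres of the families over the coordinates of `s`; `r > 0` and `ρ < 1` depend only on the
families, `K` and `δ`. The tuples `w` include all tuples of large divisors `w_i` of the `F_i(m_i)` of comparable size and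
their multiples by small integers.

Proof. But for few exceptional `m_i ≤ N`, the number of `m_i` with `g ∣ F_i(m_i)` is at most `N τ_J(g) / g` up to a factor
`exp ((log N)^s)`, `J = (log N)^a`, `a < s < b`, for all `g`: write `m_i = k u` with `u` squarefree and composed of primes
larger than `N^(1/J)`, `k ≤ exp (4 (log N)^a)`. If `w` is an exceptional tuple with `w_i ≤ X`, then the `g_i = gcd(w_i,
F_i(m_i))` are divisors of the `w_i` of size `≥ (X/2)^ρ`; there are few such tuples of divisors, and the inequality `τ_J^q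
≤ τ_K` for `K ≥ J^q` with Hölder's inequality for tuples bounds the sum of `∏ τ_J(g_i) / g_i`. The file
`MultiplicativeValues` of the starting library treats the tuples `w = (F_i(m_i))` only, with `N^k / (log N)^U` exceptions.
-/

set_option autoImplicit false

namespace Pool.Agent.Results.MP_5591bc_ag.CommonFactors

open Pool.Agent.Results.MP_5591bc_ag.CyclicCoverProducts (Family periods DegreeStatement)
open Pool.Agent.N733.TG (LM lm_totient lm_sigma)
open Pool.Agent.U536.CF (CommonT avoidT commonT_of_dvd exists_rho)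

/-- **Periods of products of cyclic covers over tuples of integers with large common factors with the values of multiplicative
functions.** Let `Γ_1, …, Γ_p`, `p ≥ 1`, be families of cyclic covers of the line with algebraic branch points, `K` a
number field and `δ` a degree. Let the `F_i` be multiplicative and positive, of at most polynomial growth, with `F_i p ≤ M
p` at the large primes, and injective there. Let `b < 1` and `0 ≤ c < 2 b - 1`. For all large `N`, for all tuples `m` in
`[1, N]^p` but `N^p exp (-(log N)^c)`, for EVERY tuple `w` of integers `w_i ≥ exp ((log N)^b)` with `gcd(w_i, F_i(m_i)) ≥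
w_j^ρ` for all `i`, `j`, the point `s = (1 / w_1, …, 1 / w_p)` is in the polydisc of radius `r` and the degree `δ`
statement over `K` is true at `s` for the periods of the product of the fibres of the families over the coordinates of
`s`; `r > 0` and `ρ < 1` depend only on the families, `K` and `δ`. Tuples of divisors `w_i ≥ exp ((log N)^b)` of the
`F_i(m_i)` with `w_j^ρ ≤ w_i` for all `i`, `j` are such tuples. Euler's function and the sum of the divisors are examples
of the `F_i`. -/
theorem result :
    (∀ (p : ℕ), 1 ≤ p → ∀ (Γ : Fin p → Family) (K : Type) [Field K] [NumberField K] [Algebra K ℂ] (δ : ℕ),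
      ∃ r ρ : ℝ, 0 < r ∧ (∀ l, r ≤ (Γ l).ρ) ∧ 0 < ρ ∧ ρ < 1 ∧ ∀ F : Fin p → ℕ → ℕ, (∀ l, LM (F l)) →
        ∀ b c : ℝ, b < 1 → 0 ≤ c → c < 2 * b - 1 → ∃ N₀ : ℕ, ∀ N : ℕ, N₀ ≤ N →
          ({m : Fin p → ℕ | (∀ l, 1 ≤ m l ∧ m l ≤ N) ∧ ¬ ∀ w : Fin p → ℕ, CommonT F b ρ N m w →
            (∀ l, 1 / (w l : ℝ) < r) ∧ DegreeStatement K (periods Γ) r δ fun l => 1 / (w l : K)}.ncard : ℝ) ≤
            (N : ℝ) ^ p * Real.exp (-(Real.log N ^ c))) ∧
    (LM Nat.totient ∧ LM (fun m => ∑ d ∈ m.divisors, d)) ∧
    ∀ (k : ℕ) (F : Fin k → ℕ → ℕ) (b ρ : ℝ) (N : ℕ) (m w : Fin k → ℕ), (∀ i, Real.exp (Real.log N ^ b) ≤ (w i : ℝ)) →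
      (∀ i, w i ∣ F i (m i)) → (∀ i j, (w j : ℝ) ^ ρ ≤ (w i : ℝ)) → CommonT F b ρ N m w := by
  refine ⟨?_, ⟨lm_totient, lm_sigma⟩, fun k F b ρ N m w h1 h2 h3 => commonT_of_dvd h1 h2 h3⟩
  intro p hp Γ K _ _ _ δ
  obtain ⟨r, hr, hrρ, c, C, hc, hC⟩ := CyclicCoverProducts.result Γ K δ
  obtain ⟨ρ, hρ0, hρ1, hρ⟩ := exists_rho hp hc
  refine ⟨r, ρ, hr, hrρ, hρ0, hρ1, fun F hF b c' hb hc0 hcb => ?_⟩
  obtain ⟨N₀, hN₀⟩ := avoidT hp hF hρ0 hρ1.le hρ C hb hc0 hcb
  refine ⟨N₀, fun N hN => ?_⟩
  refine le_trans (le_of_eq ?_) (hN₀ N hN {w : Fin p → ℕ | ¬ ((∀ l, 1 / (w l : ℝ) < r) ∧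
      DegreeStatement K (periods Γ) r δ fun l => 1 / (w l : K))} (fun X hX => by
    refine le_trans (le_of_eq ?_) (hC X hX)
    rfl))
  congr 2
  ext m
  simp only [Set.mem_ofPred_eq]
  refine and_congr Iff.rfl ⟨?_, ?_⟩
  · intro h
    by_contra hcon
    exact h (fun w hw => by_contra (fun h2 => hcon ⟨w, h2, hw⟩))
  · rintro ⟨w, h1, h2⟩ h3
    exact h1 (h3 w h2)

end Pool.Agent.Results.MP_5591bc_ag.CommonFactors
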