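import Pool.Agent.U534.UnivRel2

/-!
# Infinitely many curves all of whose period relations of bounded degree are trivial

Let `F_0, F_1, …` be any sequence of families of hyperelliptic curves `y² = f_j(x) (x - 1 / t)` of arbitrary genera (`f_j ∈ ℚ[X]`
monic of degree `2 g_j` with `2 g_j` distinct real roots which are not zero), let `A_0, A_1, …` be rich sets of natural numbers
(the number of the elements up to `T` is not `O(T ^ (1 - ε))` for any `ε > 0`), and let `Ξ_0, Ξ_1, …` be any sequence of
complex numbers (for example all periods of all varieties over the algebraic numbers, which are countably many).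

Then there are `t_0 < t_1 < …` with `t_j ∈ A_j` such that the infinitely many curves `C_j : y² = f_j(x) (x - 1 / t_j)` have the
following properties.

1. For every number field `K` and every `d` there is an `l` such that every polynomial relation of degree at most `d` over
`K` between `2πi` and the periods of the curves `C_l, C_(l+1), C_(l+2), …` (infinitely many variables; the degree is the total
degree) holds on the set of all `(μ, (X_j))` with `μ ≠ 0` and `X_j Q_j X_jᵀ = μ B_j` (the Riemann-Legendre relations).
This set is the fibre of the `ℚ̄`-Zariski closure of the graph of the period map for the product of the families (in the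
terms of the problem: `B_{P,s}`); so the relations of degree at most `d` over `K` are those of this fibre, for all products
of finitely many of the curves at the same time.

2. For all `i` and `d` there is an `l` such that every polynomial relation of degree at most `d` with coefficients in the
`ℚ`-space spanned by `Ξ_0, …, Ξ_i` between `2πi` and the periods of the curves `C_l, C_(l+1), …` holds at all `(2πi, (X_j))`
with `X_j Q_j X_jᵀ = 2πi B_j`.

Proof. The curves are chosen one after the other, such that there are no relations of degree at most `j` between the periods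
of `C_j` with coefficients in the space spanned by the products of elements of a space `V_j` (spanned by `Ξ_0, …, Ξ_j` and `j`
algebraic numbers) and of `j` factors from `1`, `2πi` and the periods of `C_0, …, C_(j-1)`; here the theorem `vver` of helper118
(`Pool/Agent/Y118/HG`) for one curve is used. Given a relation between many curves, the periods are replaced by the
points `diag(1, 2πi, …) g_j P_j` of the torsors with rational matrices `g_j ∈ Sp`, beginning with the last curve; these points
have entries in `ℚ + ℚ 2πi`, so that the coefficients stay in the given spaces. Then the density of `Sp(ℚ)` in `Sp(ℂ)` and,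
for 1, the transcendence of `2πi` are used.
-/

set_option autoImplicit false

open Polynomial Matrix

namespace Pool.Agent.Results.MP_5591bc_ag.InfiniteProducts

/-- `A` is rich: for all `ε > 0` the number of its elements up to `T` is not `O(T ^ (1 - ε))` -/
def Rich (A : Set ℕ) : Prop :=
  ∀ ε : ℝ, 0 < ε → ∀ C : ℝ, ∃ T : ℕ, 1 ≤ T ∧ C * (T : ℝ) ^ (1 - ε) < ((A ∩ Set.Icc 1 T).ncard : ℝ)

/-- the branch points: `t` inserted at place `m` in the sequence of the `a i` -/
noncomputable def branch {n : ℕ} (a : Fin n → ℝ) (m : Fin (n + 1)) (t : ℝ) : Fin (n + 1) → ℝ :=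
  Fin.insertNth (α := fun _ => ℝ) m t a

/-- the period `∮ x^j dx / y`, `y² = ∏ (x - e i)`, over the loop around the segment `[e l, e (l + 1)]`, that is twice
the integral over the segment (principal branch of the square root) -/
noncomputable def period {n : ℕ} (e : Fin (n + 1) → ℝ) (l j : Fin n) : ℂ :=
  2 * ∫ x in (e l.castSucc)..(e l.succ), (x : ℂ) ^ (j : ℕ) / (((∏ i, (x - e i) : ℝ) : ℂ) ^ (1 / 2 : ℂ))

/-- the polarisation in terms of the forms `x^j dx / y`, `y² = F(x) = ∑ c_k x^k`: entries `(i - j)/2 * c_(i+j+2)` -/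
noncomputable def polDR (n : ℕ) (F : ℚ[X]) : Matrix (Fin n) (Fin n) ℚ :=
  Matrix.of fun i j => (((i : ℕ) : ℚ) - ((j : ℕ) : ℚ)) / 2 * F.coeff ((i : ℕ) + (j : ℕ) + 2)

/-- the alternating form with entries `2 (-1)^r` at `(r, s)`, `|r - s| = 1`, the intersection form of the loops -/
def polB (n : ℕ) : Matrix (Fin n) (Fin n) ℚ :=
  Matrix.of fun r s => if (r : ℕ) = s + 1 ∨ (s : ℕ) = r + 1 then 2 * (-1) ^ (r : ℕ) else 0

/-- A family of hyperelliptic curves of genus `g`: `y² = f(x) (x - 1 / t)`, where `f ∈ ℚ[X]` is monic of degree `2 g` with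
the distinct real roots `a i ≠ 0` in increasing order; `0` is at place `m` among them. -/
structure Family where
  /-- the genus -/
  g : ℕ
  /-- the polynomial -/
  f : ℚ[X]
  /-- the roots -/
  a : Fin (2 * g) → ℝ
  /-- the place of `0` -/
  m : Fin (2 * g + 1)
  /-- `f = ∏ (X - a i)` -/
  eq : f.map (algebraMap ℚ ℝ) = ∏ i, (X - C (a i))
  /-- the roots and `0` are in increasing order -/
  sorted : StrictMono (branch a m 0)

/-- the period matrix of the curve `y² = f(x) (x - 1 / t)` -/
noncomputable def Family.per (F : Family) (t : ℕ) : Matrix (Fin (2 * F.g)) (Fin (2 * F.g)) ℂ :=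
  Matrix.of (period (branch F.a F.m (1 / (t : ℝ))))

/-- `X` satisfies the Riemann-Legendre relations of the curve `y² = f(x) (x - 1 / t)` with the multiplier `μ` -/
def Family.Legendre (F : Family) (t : ℕ) (X : Matrix (Fin (2 * F.g)) (Fin (2 * F.g)) ℂ) (μ : ℂ) : Prop :=
  X * (polDR (2 * F.g) (F.f * (Polynomial.X - C (1 / (t : ℚ))))).map (algebraMap ℚ ℂ) * Xᵀ =
    μ • (polB (2 * F.g)).map (algebraMap ℚ ℂ)

/-- The variables: `none` stands for the multiplier, `some ⟨j, (a, b)⟩` for the entry `(a, b)` of the period matrix of the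
curve `C_j`, `j = 0, 1, 2, …` -/
abbrev Var (F : ℕ → Family) : Type := Option (Σ j : ℕ, Fin (2 * (F j).g) × Fin (2 * (F j).g))

/-- the point with the coordinates `μ` and the entries of the matrices `X j` -/
def point {F : ℕ → Family} (X : ∀ j, Matrix (Fin (2 * (F j).g)) (Fin (2 * (F j).g)) ℂ) (μ : ℂ) : Var F → ℂ
  | none => μ
  | some q => X q.1 q.2.1 q.2.2

/-- only the multiplier and the curves `C_j` with `j ≥ l` occur in `P` -/
def From {F : ℕ → Family} {R : Type} [CommSemiring R] (l : ℕ) (P : MvPolynomial (Var F) R) : Prop :=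
  ∀ q, some q ∈ P.vars → l ≤ q.1

/-- For every sequence of families of hyperelliptic curves, all rich sets `A_j` and every sequence `Ξ` of complex numbers there
are `t_0 < t_1 < …`, `t_j ∈ A_j`, such that all relations of degree at most `d` between `2πi` and the periods of the infinitely
many curves `C_j : y² = f_j(x) (x - 1 / t_j)`, `j ≥ l`, are consequences of the Riemann-Legendre relations: for the relations
over a number field `K` (1), where `l` depends on `K` and `d`; and for the relations with coefficients in the `ℚ`-space spanned by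
`Ξ_0, …, Ξ_i` (2), where `l` depends on `i` and `d`. -/
theorem result (F : ℕ → Family) (A : ℕ → Set ℕ) (hA : ∀ j, Rich (A j)) (Ξ : ℕ → ℂ) :
    ∃ t : ℕ → ℕ, StrictMono t ∧ (∀ j, t j ∈ A j) ∧
      (∀ j, StrictMono (branch (F j).a (F j).m (1 / (t j : ℝ)))) ∧
      (∀ j, (F j).Legendre (t j) ((F j).per (t j)) (2 * Real.pi * Complex.I)) ∧
      (∀ (K : Subfield ℂ), FiniteDimensional ℚ K → ∀ d : ℕ, ∃ l : ℕ, ∀ P : MvPolynomial (Var F) K,
        P.totalDegree ≤ d → From l P →
        MvPolynomial.eval (point (fun j => (F j).per (t j)) (2 * Real.pi * Complex.I))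
          (MvPolynomial.map (algebraMap K ℂ) P) = 0 →
        ∀ (μ : ℂ) (X : ∀ j, Matrix (Fin (2 * (F j).g)) (Fin (2 * (F j).g)) ℂ), μ ≠ 0 →
          (∀ j, (F j).Legendre (t j) (X j) μ) →
          MvPolynomial.eval (point X μ) (MvPolynomial.map (algebraMap K ℂ) P) = 0) ∧
      ∀ i d : ℕ, ∃ l : ℕ, ∀ P : MvPolynomial (Var F) ℂ, P.totalDegree ≤ d →
        (∀ s, P.coeff s ∈ Submodule.span ℚ (Ξ '' Set.Iic i)) → From l P →
        MvPolynomial.eval (point (fun j => (F j).per (t j)) (2 * Real.pi * Complex.I)) P = 0 →
        ∀ X : (∀ j, Matrix (Fin (2 * (F j).g)) (Fin (2 * (F j).g)) ℂ),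
          (∀ j, (F j).Legendre (t j) (X j) (2 * Real.pi * Complex.I)) →
          MvPolynomial.eval (point X (2 * Real.pi * Complex.I)) P = 0 := by
  obtain ⟨VV, hV1, hV2, hV3, hV4⟩ := Pool.Agent.U534.Univ.exists_VV Ξ
  have hn : ∀ j, Even (2 * (F j).g) := fun j => even_two_mul _
  obtain ⟨t, ht1, ht2, ht3, ht4, ht5⟩ := Pool.Agent.U534.Univ.seqG_rel (n := fun j => 2 * (F j).g)
    (cc := fun j x => (F j).per x)
    (QQ := fun j x => (-1 / 2 : ℂ) • (polDR (2 * (F j).g) ((F j).f * (X - C (1 / (x : ℚ))))).map (algebraMap ℚ ℂ))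
    (OK := fun j x => StrictMono (branch (F j).a (F j).m (1 / (x : ℝ))) ∧
      Pool.Agent.U534.Univ.Gd (fun x => (F j).per x)
        (fun x => (-1 / 2 : ℂ) • (polDR (2 * (F j).g) ((F j).f * (X - C (1 / (x : ℚ))))).map (algebraMap ℚ ℂ)) x) hn
    (fun j => Pool.Agent.U534.Univ.hyp_stepG (hn j) (F j).a (F j).f (F j).eq (F j).m (F j).sorted)
    (fun j x h => Pool.Agent.U534.Univ.exists_P0 (hn j) ((F j).f * (X - C (1 / (x : ℚ)))) h.2) hA hV1 hV2
  have hpt : ∀ (X : ∀ j, Matrix (Fin (2 * (F j).g)) (Fin (2 * (F j).g)) ℂ) (μ : ℂ),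
      point (F := F) X μ = Pool.Agent.U534.Univ.pn (n := fun j => 2 * (F j).g) X μ := by
    intro X μ
    funext q
    rcases q with _ | q <;> rfl
  refine ⟨t, ht1, ht2, fun j => (ht3 j).1, fun j => Pool.Agent.Y123.ST.rel_iff.2 (ht3 j).2, ?_, ?_⟩
  · intro K hK d
    obtain ⟨i, hi⟩ := hV4 K hK
    refine ⟨max i d, fun P hP hv h0 μ X hμ hX => ?_⟩
    rw [hpt] at h0 ⊢
    exact ht5 K hK i d hi P hP hv h0 μ hμ X fun j => Pool.Agent.Y123.ST.rel_iff.1 (hX j)
  · intro i d
    refine ⟨max i d, fun P hP hPc hv h0 X hX => ?_⟩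
    rw [hpt] at h0 ⊢
    exact ht4 i d P ⟨hP, fun s => hV3 i (hPc s)⟩ hv h0 X fun j => Pool.Agent.Y123.ST.rel_iff.1 (hX j)

end Pool.Agent.Results.MP_5591bc_ag.InfiniteProducts
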