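import Pool.Agent.U449.BV.VU
import Pool.Agent.Results.MP_5591bc_ag.CyclicCoverProducts

/-!
# Periods of products of cyclic covers near the coordinates of polynomials on arbitrary sets

Let `C⁽ˡ⁾_z : y ^ N = (x - z) ^ e₀ ∏_j (x - a_j) ^ (e_j)`, `l = 1, …, q`, be families of cyclic covers of the line with
algebraic branch points (different or equal), as in the starting theorem `CyclicCoverProducts` of this problem, `K` a number field
and `δ'` a degree. There is `c > 0` such that the following holds for `κ ≥ 0`, `q - c + q κ < δ ≤ q`. Let `p` be a large prime, `f(x, y)`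
ANY polynomial of bounded degree over the field of `p ^ q` elements with a monomial which contains both variables (for example
`f = x y`), let `A`, `B` be ARBITRARY subsets of this field with at least `p ^ δ` elements, and `g`, `h` ARBITRARY functions. For all
the pairs `(a, b)` in `A × B`, apart from a proportion of at most `p ^ (-ρ)`, and for ALL tuples `m` of integers `m_l ≥ 2` at a
distance of at most `p ^ κ` from the tuple of the least residues of the `q` coordinates of `f(a, b) + g(a) + h(b)`: every relation of
degree at most `δ'` over `K` between the periods of all the curves `C⁽ˡ⁾_{1 / m_l}` is the value at `(1 / m_1, …, 1 / m_q)` of a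
relation over `K[z_1, …, z_q]`, of degree at most `δ'`, which holds identically on the graph of the period map. More generally,
this holds for the values `F(a, b)` of all vector functions of two variables with few coincidences (`RareV`), on arbitrary finite
sets.

Since the sets and the functions `g` and `h` are arbitrary, the tuples have no arithmetic structure, and a tuple may be
taken by very many pairs. So the number of the exceptions (starting library) does not give the result directly. Proof: the
inequality of Cauchy and Schwarz; for most pairs `a, a'` the difference `F(a, b) - F(a', b)` is small for few `b`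
(`Pool.Agent.U449.BV`).
-/

set_option autoImplicit false

namespace Pool.Agent.Results.MP_5591bc_ag.MixedPolynomials

open Finset
open Pool.Agent.U449.BV (RareV OnProductsV OnProductsU on_products_saving coordinates)
open Pool.Agent.Results.MP_5591bc_ag.CyclicCoverProducts (Family periods DegreeStatement exceptions)

/-- For ALL tuples `m` of integers `m_l ≥ 2` with `|m_l - x_l| ≤ W` for all `l` the point `(1 / m_1, …, 1 / m_q)` is in the polydisc of
radius `r` and the degree `δ` statement over `K` is true there. -/
def Near (K : Type) [Field K] [Algebra K ℂ] {q : ℕ} (Γ : Fin q → Family) (r : ℝ) (δ : ℕ) (W : ℝ) (x : Fin q → ℝ) : Prop :=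
  ∀ m : Fin q → ℕ, (∀ l, 2 ≤ m l) → (∀ l, |(m l : ℝ) - x l| ≤ W) →
    (∀ l, 1 / (m l : ℝ) < r) ∧ DegreeStatement K (periods Γ) r δ fun l => 1 / (m l : K)

/-- **Theorem.** Let `Γ_1, …, Γ_q`, `q ≥ 1`, be families of cyclic covers, `K` a number field and `δ'` a degree. There are a polydisc of
radius `r > 0` and `c > 0` such that for all `κ ≥ 0` the property `Near`, with windows of length `X ^ κ`, holds for almost all values
of vector functions of two variables with few coincidences, on arbitrary finite sets of at least `X ^ δ` elements,
`q - c + q κ < δ ≤ q` (`OnProductsV`).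
The tuples of the least residues modulo `p` of the coordinates (with respect to a basis over the field of `p` elements) of
`f(a, b) + g(a) + h(b)` in a field of `p ^ k` elements are such a function, with `X = p`, for all polynomials `f` over this
field with a monomial which contains both variables, arbitrary functions `g` and `h`, and arbitrary finite subsets. -/
theorem result :
    (∀ (q : ℕ), 1 ≤ q → ∀ (Γ : Fin q → Family) (K : Type) [Field K] [NumberField K] [Algebra K ℂ] (δ' : ℕ),
      ∃ r : ℝ, 0 < r ∧ (∀ l, r ≤ (Γ l).ρ) ∧ ∃ c : ℝ, 0 < c ∧ ∀ κ : ℝ, 0 ≤ κ →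
        OnProductsV q ((q : ℝ) - c + q * κ) κ (Near K Γ r δ')) ∧
    ∀ (p : ℕ) [Fact p.Prime] (k : ℕ) (K : Type) [Field K] [Algebra (ZMod p) K] (e : Module.Basis (Fin k) (ZMod p) K)
      (d : ℕ) (f : MvPolynomial (Fin 2) K), f.totalDegree ≤ d → (∃ m ∈ f.support, m 0 ≠ 0 ∧ m 1 ≠ 0) →
      ∀ (g h : K → K) (A B : Finset K),
        RareV d A B (fun a b i => (((e.repr (MvPolynomial.eval ![a, b] f + g a + h b) i).val : ℕ) : ℝ)) := by
  refine ⟨fun q hq Γ K _ _ _ δ => ?_, coordinates⟩
  obtain ⟨r, hr, hrρ, c, C, hc, hC⟩ := CyclicCoverProducts.result Γ K δ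
  have hq1 : (0 : ℝ) < q := by exact_mod_cast hq
  refine ⟨r, hr, hrρ, min c q, lt_min hc hq1, fun κ hκ => ?_⟩
  have h1 := on_products_saving (k := q) 2 (Ω := Unit)
    (fun _ => {w : Fin q → ℕ | ¬ ((∀ l, 1 / (w l : ℝ) < r) ∧
      DegreeStatement K (periods Γ) r δ fun l => 1 / (w l : K))}) (c := c) (C := C) hκ
    (fun _ X hX => le_trans (le_of_eq rfl) (hC X hX))
  have h2 := h1.mono (P' := fun _ : Unit => Near K Γ r δ) id (fun _ W x _ h' m hm2 hm => not_not.1 (h' m hm2 hm))
  intro δ'' h3 h4 d
  obtain ⟨ρ, hρ, X₀, hX₀⟩ := h2 δ'' h3 h4 d
  exact ⟨ρ, hρ, X₀, fun X hX => hX₀ X hX ()⟩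

end Pool.Agent.Results.MP_5591bc_ag.MixedPolynomials
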