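import Pool.Agent.U405.RS.G5
import Pool.Agent.Results.MP_5591bc_ag.CyclicCoverProducts

/-!
# Periods of products of cyclic covers over values of multiplicative functions in thin sets

Let `F_1, …, F_k` be positive multiplicative functions of at most polynomial growth which for each `a ≥ 1` are injective at the
powers `p ^ a` of the large primes and at most `M p ^ a` there; for example Euler's function or the sum of the divisors. Let `C⁽ˡ⁾_z : y ^ N = (x - z) ^ e₀ ∏_j (x - a_j) ^ (e_j)`, `l = 1, …, k`, be families of cyclic covers of the line with
algebraic branch points (different or equal), as in the starting theorem `CyclicCoverProducts` of this problem. We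
prove: for every number field `K`, all degrees `δ` and for almost all `k`-tuples
`(m_1, …, m_k)` in products of thin sets every relation of degree at most `δ` over `K` between the periods of all the curves
`C⁽ˡ⁾_{1 / F_l(m_l)}` is the value at `(1 / F_1(m_1), …, 1 / F_k(m_k))` of a relation over `K[z_1, …, z_k]`, of degree at
most `δ`, which holds identically on the graph of the period map.

The starting theorem `MultiplicativeValues` of this problem treats the average over all tuples `m ∈ [1, N]^k`. Here each `m_i` runs
over a thin set: the shifted primes `p + a_i`, `p ≤ x`, for an arbitrary integer `a_i`, or an interval `(u, u + h]` with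
`x^τ ≤ h ≤ x`, where `u ≤ x` and `1 - c / k < τ ≤ 1`; both kinds can be mixed. The tuples of values `(F_1(m_1), …, F_k(m_k))` are taken with large and
uneven multiplicities, so that the size of the exceptional set says nothing about them.

Proof. Own tool `Pool.Agent.U405.RS`. A thin set `S` has at most `B g^ω(n) |S| / n` multiples of `n` for every `n ≤ x^δ` (for the
shifted primes by the Brun-Titchmarsh inequality of the library). Write `m_i = n_i w_i` with `n_i` composed of the primes
`≤ z = x^(1 / J)`, `J` a small multiple of `log log x`. By Rankin's method one has `n_i ≤ x^η` for most `m_i` in `S_i`; and `w_i` has at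
most `J` prime factors and exponents `≤ J`, so that it is determined by `F_i(w_i)` up to `x^o(1)` possibilities. A slab of the
exceptional set is then covered by the fibres over one coordinate, and the saving `X^c` of the exceptional set is larger than the loss
`x^(k (1 - τ))` from the short intervals. The bound for the exceptional tuples is the starting theorem `CyclicCoverProducts`.
-/

set_option autoImplicit false

namespace Pool.Agent.Results.MP_5591bc_ag.ThinTuples

open Pool.Agent.U405.RS
open Pool.Agent.Results.MP_5591bc_ag.CyclicCoverProducts (Family periods DegreeStatement exceptions)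

/-- **Periods of products of cyclic covers over thin sets.** Let `Γ_1, …, Γ_k`, `k ≥ 1`, be families of cyclic covers,
`K` a number field and `δ` a degree. There is a polydisc of radius `r > 0` and `c > 0` such that for all `F_1, …, F_k` in the class
`PM` and every `U`, in the sense of `ThinAll c F U`
(with a saving of `(log x)^U`, uniformly in the parameter, for almost all `m` in all products `S_1 × ⋯ × S_k` of sets of shifted
primes `p + a_i`, `p ≤ x`, and intervals `(u, u + h]`, `u ≤ x`, `x^τ ≤ h ≤ x`, whenever `0 < τ ≤ 1`, `k τ > k - c`)
all `F_l(m_l)` are at least `2`, the point `s = (1 / F_1(m_1), …, 1 / F_k(m_k))` is in the polydisc and the degree `δ` statement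
over `K` is true at `s` for the periods of the product of the fibres of the families over the coordinates of `s`. Euler's
function, the sum of the divisors and the identity are in the class. -/
theorem result :
    (∀ (k : ℕ), 1 ≤ k → ∀ (Γ : Fin k → Family) (K : Type) [Field K] [NumberField K] [Algebra K ℂ] (δ : ℕ),
      ∃ r : ℝ, 0 < r ∧ (∀ l, r ≤ (Γ l).ρ) ∧ ∃ c : ℝ, 0 < c ∧
        ∀ F : Fin k → ℕ → ℕ, (∀ l, PM (F l)) → ∀ U : ℕ,
          ThinAll c F U (fun (_ : Unit) (v : Fin k → ℕ) => (∀ l, 2 ≤ v l) ∧ ((∀ l, 1 / (v l : ℝ) < r) ∧
            DegreeStatement K (periods Γ) r δ fun l => 1 / (v l : K)))) ∧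
    (PM Nat.totient ∧ PM (fun m => ∑ d ∈ m.divisors, d) ∧ PM (fun m => m)) := by
  refine ⟨fun k hk Γ K _ _ _ δ => ?_, examplesT⟩
  obtain ⟨r, hr, hrρ, c, C, hc, hC⟩ := CyclicCoverProducts.result Γ K δ
  refine ⟨r, hr, hrρ, c, hc, fun F hF U => thinAll_two hk hF hc C
    (fun (_ : Unit) (v : Fin k → ℕ) => ((∀ l, 1 / (v l : ℝ) < r) ∧
            DegreeStatement K (periods Γ) r δ fun l => 1 / (v l : K))) (fun _ X hX => ?_) U⟩
  refine le_trans (le_of_eq ?_) (hC X hX)
  rfl

end Pool.Agent.Results.MP_5591bc_ag.ThinTuples
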